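import Pool.Agent.Tus.L_tusnady2

namespace Pool.Agent.Results.MP_e00059_co.TusnadyOrder

open Classical in
/-- Discrepancy of a finite point set `P ⊂ ℝ^d` with respect to closed axis-parallel boxes: the
least natural number `m` such that some colouring `χ : P → {-1, +1}` satisfies
`|∑_{p ∈ P ∩ B} χ(p)| ≤ m` for every box `B = [a, b]`, `a ≤ b`, i.e.
`min_χ max_B |∑_{p ∈ P ∩ B} χ(p)|`. -/
noncomputable def disc {d : ℕ} (P : Finset (Fin d → ℝ)) : ℕ :=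
  sInf {m : ℕ | ∃ χ : (Fin d → ℝ) → ℤ, (∀ p ∈ P, χ p = 1 ∨ χ p = -1) ∧
    ∀ a b : Fin d → ℝ, a ≤ b → |∑ p ∈ P with p ∈ Set.Icc a b, χ p| ≤ m}

/-- `d_n^{(d)}`: the maximum of `disc P` over all `n`-point sets `P ⊂ ℝ^d`. -/
noncomputable def dn (d n : ℕ) : ℕ :=
  sSup {m : ℕ | ∃ P : Finset (Fin d → ℝ), P.card = n ∧ m = disc P}

/-- For every `d ≥ 2` there is `c > 0` with `d_n^{(d)} ≥ c (log n)^(d - 1/2)` for all large `n`;
in particular `d_n^{(2)} ≥ c (log n)^(3/2)` in the plane. -/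
theorem result (d : ℕ) (hd : 2 ≤ d) : ∃ c : ℝ, 0 < c ∧ ∃ N0 : ℕ, ∀ n : ℕ, N0 ≤ n →
    c * (Real.log n)^((d:ℝ) - 1/2) ≤ dn d n :=
  Tus.tusnady2 d hd

end Pool.Agent.Results.MP_e00059_co.TusnadyOrder
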